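import Mathlib
import Pool.Agent.Y156.U.Main
import Pool.Agent.Y156.P.Good
import Pool.Agent.Y156.P.Crit

/-!
# Unramified cohomology of the product of an abelian variety and any variety over a finite field

Let `p` be a prime number, `q = p ^ a`, let `K i` (`i` in a finite set) be CM fields of degrees
`2 g i` and `π i` Weil numbers for `q` in `K i`, each of one of the following two kinds (`IsGoodWeil`).

* Prime dimension (`IsPrimeWeil`): `g i` is `1` or a prime number, each power `(π i) ^ n`, `n ≥ 1`,
  generates `K i`, and if `g i` is an odd prime number and `K i` has a quadratic subfield, the slopes
  of `π i` have odd denominators (`OddSlopes`), for instance `π i` is ordinary. By Honda and Tate they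
  correspond to the geometrically simple abelian varieties of dimension `g i` with commutative
  geometric endomorphism ring which are not supersingular.
* Irreducible fields (`IsIrreducibleWeil`): `g i` is arbitrary; the rational functions on the set of
  the complex embeddings of `K i` that change their sign under complex conjugation form an
  irreducible representation of the group of automorphisms of `ℂ` (`OddIrreducible`); `π i` generates
  `K i` and is not supersingular. By the fourth part of the theorem (`IrreducibilityCriteria`) this is
  so if `K i` has a flip (`HasFlip`): an automorphism of `ℂ` that exchanges two complex conjugate
  embeddings of `K i` and fixes all others, so in particular if the Galois group has the largest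
  possible order `2 ^ g g!`, the generic case; and if `g i` is an odd prime number and `K i` has no
  quadratic subfield.

The fields `K i` are pairwise independent (`PairwiseIndep`): for `i ≠ k` and all complex embeddings
`φ` of `K i` and `ψ` of `K k` some automorphism of `ℂ` is the identity on `φ (K i)` and the complex
conjugation on `ψ (K k)`. This is no condition if there is only one field. By the second part of the
theorem (`FieldsIndependent`) fields of pairwise different degrees are pairwise independent if all of
them, except perhaps the one of smallest degree, have irreducible odd parts. Let `f i` be monic
polynomials whose complex roots are conjugates of `π i` (`IsPolyOf`), for instance powers of the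
characteristic polynomials of Frobenius.

Let `A` be an abelian variety over the field with `Q = q ^ s` elements which is isogenous to a product
of powers of abelian varieties coming from the field with `q` elements, with characteristic
polynomials `f i`.

Let `Z` be **any** smooth projective variety over the field with `Q` elements whose Frobenius
eigenvalues `ρ` are independent of the fields `K i` (`Independent`): for each complex embedding `ψ` of
`K i` there is an automorphism `τ` of `ℂ` which fixes a power of `ρ` and is the complex conjugation on
`ψ (K i)`. This is so if the eigenvalues have powers in a number field which is linearly disjoint from
the normal closures of the `K i`, or powers in a totally real field (take for `τ` the complex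
conjugation), and by the third part of the theorem (`NumbersIndependent`) for **all** nonzero
algebraic numbers `ρ` of degree less than `2 g i` for all `i`, if the fields `K i` have irreducible odd
parts, for instance if the Betti numbers of `Z` are less than `2 g i` for all `i`.

The first part of the theorem: **the group `H^3_nr(A × Z, ℚ/ℤ(2))` is finite if and only if the group
`H^3_nr(Z, ℚ/ℤ(2))` is finite** (`UnramifiedTimes`). So Q1 for `A × Z` is equivalent to Q1 for `Z`. In
particular `H^3_nr(A × Z, ℚ/ℤ(2))` is finite if `Z` is a point, a curve, or a surface, for surfaces
without any assumption on the Tate conjecture (if homologically trivial correspondences on `A × Z` are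
nilpotent), since `H^3_nr(Z, ℚ/ℤ(2))` is finite for the varieties of dimension at most two.

The properties that are used are collected in `IsAbelian` (for `A`: the Chow ring, the correspondences
and the cohomology, with Kimura nilpotence and the theorem of Tate on divisors) and in `IsUnr`, for
the etale motivic cohomology groups `H = H^4(A × Z, ℤ(2))`, `HZ = H^4(Z, ℤ(2))` and their subgroups
`CH^2(A × Z)`, `CH^2(Z)`; by Kahn the quotients are the groups `H^3_nr`. They are: the ring `R` of
correspondences from `A` to `A` with integral coefficients acts on `H`; the Frobenius endomorphism of
`A × Z` acts on `H` as multiplication by `Q ^ 2`; a correspondence `x × y`, where `y` has positive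
codimension, maps `H`, up to a positive integer, to `CH^2(A × Z)`, since it factors through the product
of `y` with `H^2(Z, ℤ(1)) = Pic(Z)` or `H^0(Z, ℤ(0)) = ℤ`, and for `y = 1` it factors through `HZ`; the
groups `H / m` are finite, since they are contained in groups of etale cohomology with finite
coefficients. The condition on `Z` (`FrobeniusIndependent`) is that the Frobenius endomorphism of `Z`
satisfies on `H` a polynomial with independent roots, for instance a multiple of a power of its
characteristic polynomial if the homologically trivial correspondences are nilpotent.

Known before: finiteness if for the variety the conjectures of Tate and Beilinson hold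
(Colliot-Thélène, Kahn, Soulé). The result `LinkedFactors` (helper128) says for products of varieties
with finite dimensional motives that only linked factors matter; which factors are linked is a
question on relations between Frobenius eigenvalues. Here it is answered for large classes of abelian
varieties: there are no relations with any independent variety `Z`.

The proof. (1) There are dual systems of products `D t`, `E t` of divisors on `A`, such that
`∑ t, E t × D t` is the projector to the part of the cohomology of `A` generated by divisors. If `α` is
an eigenvalue of Frobenius on a complement then `α ρ` is not a power of `Q` for all independent `ρ`.
Suppose that the product of `ρ` and of some eigenvalues `φ (π i)`, no two of them complex conjugate, is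
a power of `q`, up to a root of unity. By the argument of `AllCMTypesTimes` (helper1, whose library
`Y1.CT` is used here) the independence gives such a relation for one field `K = K i` alone. Let
`w (φ)` be the slope of `φ (π)` minus `1 / 2`, an odd function on the complex embeddings of `K`: it
changes the sign under complex conjugation. Then all `w τ` are orthogonal to a nonzero space `S` of
odd rational functions which is stable under the automorphisms `τ` of `ℂ`. If the space of all odd
functions is irreducible it is `S`, and `w = 0`, that is, `π` is supersingular. Let now `g` be an odd
prime number. Let `σ` be an element of order `g` of the image of the group of automorphisms in the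
permutations of the embeddings (Cauchy). It has two orbits `C` and `c C`, exchanged by complex
conjugation `c`. For `u ∈ S` the cyclic correlations of the restrictions of `w τ` and `u` to `C` are
zero. Since the cyclotomic polynomial of order `g` is irreducible over `ℚ` one of the two restrictions
is constant. If not all `w τ` are constant on `C`, all `u ∈ S` are; then `K` has a quadratic subfield,
and the sum of `w` over the `g` elements of `C` is zero, which is impossible for odd denominators. If
all `w τ` are constant on `C` then `w (τ φ) = w (τ φ')` for all `τ` and two embeddings `φ ≠ φ'`, and by
Kronecker's theorem the quotient of `φ (π)` and `φ' (π)` is a root of unity, so that some power of `π`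
does not generate `K`.
(2) Let `P` be the polynomial of the Frobenius endomorphism `F` of `A` on the complement. The
correspondence `(1 - ∑ t, E t × D t) P (F)` is homologically trivial, hence nilpotent. On `H` the
endomorphism `F` satisfies the polynomial with the roots `Q ^ 2 / ρ`, which is prime to `P`. It follows
that a positive multiple of `H` is contained in the sum of `CH^2(A × Z)` and of the pull-back of `HZ`.
Since `H / m` is finite, `H / CH^2(A × Z)` is finite if `HZ / CH^2(Z)` is.
-/

set_option autoImplicit false

namespace Pool.Agent.Results.MP_859dd5_ag.AbelianTimesVariety

open NumberField Polynomial Pool.Agent.H977R3.CM Pool.Agent.Y1.CT Pool.Agent.Y156.P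
  Pool.Agent.Y156.U

/-- **The unramified cohomology group `H^3_nr(A × Z, ℚ/ℤ(2))` is finite if and only if the group
`H^3_nr(Z, ℚ/ℤ(2))` is finite, for all products `A` of powers of abelian varieties of prime dimension
or with irreducible fields of Frobenius, and all independent varieties `Z`.** -/
theorem result :
    (∀ (p : ℕ) [Fact p.Prime] (a : ℕ), 0 < a → ∀ (I : Type) [Fintype I] (K : I → Type)
      [∀ i, Field (K i)] [∀ i, NumberField (K i)] [∀ i, IsCMField (K i)], PairwiseIndep K →
      ∀ (π : ∀ i, K i) (f : I → ℤ[X]), (∀ i, IsGoodWeil p a (π i)) →
      (∀ i, IsPolyOf (π i) (f i)) → UnramifiedTimes K (p ^ a) f) ∧
    FieldsIndependent ∧ NumbersIndependent ∧ IrreducibilityCriteria :=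
  ⟨fun _ _ _ ha _ _ _ _ _ _ hK _ _ hπ hf =>
    unramifiedTimes (Nat.one_lt_pow ha.ne' (Fact.out : Nat.Prime _).one_lt)
      (noRel_good ha hK hπ hf),
    fieldsIndependent_holds, numbersIndependent_holds, irreducibilityCriteria_hold⟩

end Pool.Agent.Results.MP_859dd5_ag.AbelianTimesVariety
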