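import Pool.Agent.Y128.UN.Main

/-!
# Finiteness of unramified cohomology of products over finite fields reduces to linked factors

Let `X_1, ..., X_n` be smooth projective geometrically connected varieties over a finite field with
`q` elements, `X` their product and `X_S` the product of the factors with indices in the set `S`.
Suppose that the Chow motives of the `X_i` are finite dimensional in the sense of Kimura and O'Sullivan
(for instance of abelian type). Some part of the motive of `X_T` is divisible by the Lefschetz
motive `𝕃`; let `b T` be the projector on a complement in the part of positive degree in each factor,
with a denominator, and let `Q T` be an integral multiple of a power of the characteristic polynomial of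
Frobenius on this complement. `S` is called linked (`Linked`) if there are eigenvalues `α i` of
Frobenius, `i` in `S`, with product `q ^ 2`, such that the product of the `α i` with `i` in `T` is a root
of `Q T` for all nonempty subsets `T` of `S`. The weights of the `α i`, which are positive, have the sum
`4`, so that `S` has at most four elements, at most two if the `H^1(X_i)` vanish.

Theorem: `H^3_nr(X, ℚ/ℤ(2))` is finite if and only if `H^3_nr(X_S, ℚ/ℤ(2))` is finite for all linked
sets `S`. There is no assumption on the Tate conjecture for the `X_i`.

Examples.

* For all `n` the finiteness of `H^3_nr(X ^ n, ℚ/ℤ(2))` follows from that for `X ^ 4` (for `X ^ 2` if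
  `b_1(X) = 0`).
* Curves have only the weight one: only sets of four curves can be linked, and only by relations
  `α_1 α_2 α_3 α_4 = q ^ 2` such that no product of two of the `α_i` is `q` times a root of unity
  (the part of `H^1 ⊗ H^1` where the eigenvalues of Frobenius are `q` times a root of unity is divisible
  by `𝕃`, by the theorem of Tate on homomorphisms of abelian varieties). So `H^3_nr` is finite for all
  products of curves without such an exotic relation.
* Surfaces have the weights one and two (`H^3` and the classes of divisors are divisible by `𝕃`): for the
  product of a curve and a surface (with finite dimensional motive) there are no linked sets with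
  more than one element, and `H^3_nr` is finite, whether or not the surface satisfies the Tate
  conjecture. Two surfaces are linked if there are eigenvalues `α`, `β` on their transcendental parts
  with `α β = q ^ 2`.

The properties of the groups which are used are collected in `IsProductTheory`. `H S` is the etale
motivic cohomology group `H^4(X_S, ℤ(2))`, `CH S` is its subgroup `CH^2(X_S)`, and the quotient is
`H^3_nr(X_S, ℚ/ℤ(2))` by a theorem of Kahn.

Idea. The idempotents `e i` decompose `H^4(X, ℤ(2))` into parts, one for each set `S`, which is a
direct summand of `H^4(X_S, ℤ(2))`. On the part of `S` the product of the Frobenius endomorphisms `F i`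
with `i` in `S` is `q ^ 2`, as the Frobenius endomorphism of `X` acts as `q ^ 2` on cohomology with
coefficients in `ℤ(2)`. If `S` is not linked then by the Nullstellensatz the ideal generated by the
relations contains a positive integer `m`, so that the image of the product of the `b T` is killed by
`m` and finite. The rest is divisible by `𝕃` up to a positive integer `N`, so that it does not
contribute to `H^3_nr`. So `N` times the part of `H^3_nr` is finite, and its quotient modulo `N` is finite
since `H^4(X, ℤ(2)) / N` is contained in the finite group `H^4(X, ℤ/N(2))`.
-/

namespace Pool.Agent.Results.MP_859dd5_ag.LinkedFactors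

open Polynomial Pool.Agent.Y128.UN

/-- The unramified cohomology of a product over a finite field is finite if and only if it is finite
for the products of linked factors; these have weights with sum four, so that there are at most four of
them. -/
theorem result {n q : ℕ} {H : Finset (Fin n) → Type} [∀ S, AddCommGroup (H S)]
    {CH : ∀ S, AddSubgroup (H S)} {R : Type} [CommRing R] [Module R (H Finset.univ)]
    {F e : Fin n → R} {b : Finset (Fin n) → R} {Q : Finset (Fin n) → ℤ[X]}
    {pull : ∀ S, H S →+ H Finset.univ} {restr : ∀ S, H Finset.univ →+ H S}
    (h : IsProductTheory q H CH R F e b Q pull restr) :
    (Finite (Unramified H CH Finset.univ) ↔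
      ∀ S : Finset (Fin n), Linked q Q S → Finite (Unramified H CH S)) ∧
    ∀ S : Finset (Fin n), Linked q Q S → S.card ≤ 4 ∧
      ∃ j : Fin n → ℕ, (∀ i ∈ S, 0 < j i ∧ ∃ α : ℂ, aeval α (Q {i}) = 0 ∧
        ‖α‖ ^ 2 = (q : ℝ) ^ j i) ∧ ∑ i ∈ S, j i = 4 :=
  ⟨main h, fun _ hS => ⟨card_le h hS, linked_weights h hS⟩⟩

end Pool.Agent.Results.MP_859dd5_ag.LinkedFactors
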