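import Pool.Agent.Y137.GN.Main
import Pool.Agent.Y156.P.UnrDefs

/-!
# Unramified cohomology of varieties over finite fields generated by abelian varieties of dimension at
most five and products of elliptic curves and abelian surfaces

Let `k` be a finite field. An abelian variety over `k` is modelled by `RedAV` (Honda, Tate): a finite
product of CM types `(E i, Φ i)` with Weil numbers `π i ∈ E i` that satisfy the formula of Shimura
and Taniyama; its cohomology of degree `n` consists of the alternating `n`-forms on the Tate module
`Ω ⊗ H_1`, on which the Frobenius endomorphism acts by `π`. The coefficients `Ω` are an algebraic
closure of `ℚ_ℓ`. The good abelian varieties `Y` (`IsGoodAVS`) are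

* **all abelian varieties of dimension at most five**;
* all products (up to isogeny over an algebraic closure) of a supersingular abelian variety and of
  powers of simple abelian varieties of dimension at most three, where any two of these of dimension
  three which are not supersingular and not isogenous have CM fields with different Galois closures,
  or Galois CM fields: in particular **all products of any number of elliptic curves and abelian
  surfaces**.

`Homology Ω V` are data of motivic homology `M X i j = H_i^M(X, ℚ(j)) = CH_j(X, i - 2 j) ⊗ ℚ` and of
`ℓ`-adic homology `E X i j = H_i(X, ℚ_ℓ(j))` (coefficients extended to `Ω`) of the separated schemes
`X` of finite type over `k` (the elements of `V`), with the Frobenius and the regulator. The class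
`Generated` contains the good abelian varieties (`IsGoodAbelianS`), the schemes whose motives are
direct summands of finite sums of twists of motives of members, and all of `Z`, `X`, `U = X ∖ Z` for
closed `Z` if it contains two of them.

**Theorem.** For all smooth projective varieties `X` of this class **the unramified cohomology group
`H^3_nr(X, ℚ/ℤ(2))` is finite**. For example this is true for all abelian varieties of dimension at most
five, all products of elliptic curves and abelian surfaces, and all products of curves of genus at most
two.

The inputs are theorems: `H^3_nr(X, ℚ/ℤ(2))` is finite if the Tate conjecture, the semisimplicity and the
conjecture of Beilinson are true for `X` (Colliot-Thélène and Kahn; only codimension two is needed;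
`IsUnramified`); on an abelian variety over `k`, the Tate classes over `k` in the system `AlgS` are
combinations of classes of cycles (`IsChowS`: Tate, Markman, Ramón Marí); homologically trivial
correspondences are nilpotent (Kimura); the properties of motivic cohomology (`IsMotivic`, Quillen) and
of the homology theories. New is that all Tate classes on the good abelian varieties are in `AlgS`
(`Pool.Agent.Results.MP_ee618e_ag.SurfacesAndDimensionFive`). In codimension two this was not known for
example for a product of two nonisogenous abelian surfaces whose CM fields have the same Galois
closure, where there are Tate classes of degree four which are not products of divisor classes.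
-/

set_option autoImplicit false

namespace Pool.Agent.Results.MP_859dd5_ag.SurfacesAndDimensionFive

open Pool.Agent.W495.TA Pool.Agent.W495.FM Pool.Agent.Y137.GN Pool.Agent.Y156.P

/-- Unramified cohomology of the smooth projective members of the class. -/
theorem result (p : ℕ) [Fact p.Prime] (ν : PadicAlgCl p ≃+* ℂ) (Ω : Type) [Field Ω]
    [IsAlgClosed Ω] [CharZero Ω] (V : Type) (T : Homology Ω V) (hT : IsHomology T) (S : V → Prop)
    (U : V → Type) (hU : IsUnramified T S U) (X : V) (hS : S X)
    (hX : Generated T (IsGoodAbelianS p ν T) X) : Finite (U X) :=
  hU X hS (tb_goodS hT hX)

end Pool.Agent.Results.MP_859dd5_ag.SurfacesAndDimensionFive
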